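import Pool.Agent.Zk54.MQ.E3b
import Pool.Agent.R403.RS.Frob

/-!
# Local operators with determinant one
-/

set_option autoImplicit false
set_option linter.unusedSectionVars false
set_option linter.style.haveILetI false

open scoped BigOperators Classical

noncomputable section

namespace Pool.Agent.Zk9.C3

open Pool.Agent.Helper884 Pool.Agent.H254R3.IN
open Pool.Agent.Zk54.MQ Pool.Agent.Zk54.MQ.E3

/-- the determinant of a rectangular matrix which is a square matrix -/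
def Dt {a b : ℕ} (T : Matrix (Fin a) (Fin b) ℂ) : ℂ :=
  if h : a = b then (T.submatrix id (Fin.cast h)).det else 0

theorem Dt_self {a : ℕ} (T : Matrix (Fin a) (Fin a) ℂ) : Dt T = T.det := by
  rw [Dt, dif_pos rfl]
  congr 1

theorem Dt_mul {a b c : ℕ} (h : a = b) (h' : b = c) (T : Matrix (Fin a) (Fin b) ℂ)
    (S : Matrix (Fin b) (Fin c) ℂ) : Dt (T * S) = Dt T * Dt S := by
  subst h
  subst h'
  rw [Dt_self, Dt_self, Dt_self, Matrix.det_mul]

theorem Dt_smul {a b : ℕ} (h : a = b) (l : ℂ) (T : Matrix (Fin a) (Fin b) ℂ) :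
    Dt (l • T) = l ^ a * Dt T := by
  subst h
  rw [Dt_self, Dt_self, Matrix.det_smul, Fintype.card_fin]

variable {U : Type} [Group U] [Finite U]

theorem size_eq {n n' : ℕ} (R : U →* Matrix (Fin n) (Fin n) ℂ)
    (R' : U →* Matrix (Fin n') (Fin n') ℂ) {χ : U → ℂ}
    (h : ∀ u, (R u).trace = χ u) (h' : ∀ u, (R' u).trace = χ u) : n' = n := by
  have h1 := h 1
  have h2 := h' 1
  rw [map_one, Matrix.trace_one, Fintype.card_fin] at h1 h2
  have h3 : (n' : ℂ) = n := h2.trans h1.symm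
  exact_mod_cast h3

/-- a normalized operator -/
theorem exists_op {n n' : ℕ} (R : U →* Matrix (Fin n) (Fin n) ℂ)
    (R' : U →* Matrix (Fin n') (Fin n') ℂ) {χ : U → ℂ} (hχ : IsIrr χ)
    (h : ∀ u, (R u).trace = χ u) (h' : ∀ u, (R' u).trace = χ u) :
    ∃ T : Matrix (Fin n') (Fin n) ℂ, Dt T = 1 ∧ ∀ u, T * R u = R' u * T := by
  obtain ⟨T, T', hT, hTR⟩ := exists_T R R' hχ h h'
  have hn := pos_of_irr R hχ h
  have e := size_eq R R' h h'
  subst e
  have h0 : T.det ≠ 0 := by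
    intro h0
    have h1 := congrArg Matrix.det hT
    rw [Matrix.det_mul, h0, mul_zero, Matrix.det_one] at h1
    exact zero_ne_one h1
  obtain ⟨c, hc⟩ := IsAlgClosed.exists_pow_nat_eq (T.det)⁻¹ hn
  refine ⟨c • T, ?_, fun u => ?_⟩
  · rw [Dt_self, Matrix.det_smul, Fintype.card_fin, hc, inv_mul_cancel₀ h0]
  · rw [Matrix.smul_mul, Matrix.mul_smul, hTR]

/-- uniqueness -/
theorem op_unique {n n' : ℕ} (R : U →* Matrix (Fin n) (Fin n) ℂ)
    (R' : U →* Matrix (Fin n') (Fin n') ℂ) {χ : U → ℂ} (hχ : IsIrr χ)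
    (h : ∀ u, (R u).trace = χ u) (h' : ∀ u, (R' u).trace = χ u)
    (T T₁ : Matrix (Fin n') (Fin n) ℂ) (hT : Dt T = 1) (hTR : ∀ u, T * R u = R' u * T)
    (hTR₁ : ∀ u, T₁ * R u = R' u * T₁) : ∃ c : ℂ, T₁ = c • T := by
  have e := size_eq R R' h h'
  subst e
  rw [Dt_self] at hT
  have hu : IsUnit T.det := by rw [hT]; exact isUnit_one
  obtain ⟨c, hc⟩ := schurM R hχ h (T⁻¹ * T₁) (fun u => by
    have h1 : T⁻¹ * R' u = R u * T⁻¹ := by
      calc T⁻¹ * R' u = T⁻¹ * (R' u * T) * T⁻¹ := by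
            rw [Matrix.mul_assoc, Matrix.mul_assoc, Matrix.mul_nonsing_inv T hu, Matrix.mul_one]
        _ = T⁻¹ * (T * R u) * T⁻¹ := by rw [hTR]
        _ = _ := by rw [← Matrix.mul_assoc, Matrix.nonsing_inv_mul T hu, Matrix.one_mul]
    rw [Matrix.mul_assoc, hTR₁, ← Matrix.mul_assoc, h1, Matrix.mul_assoc])
  refine ⟨c, ?_⟩
  calc T₁ = T * (T⁻¹ * T₁) := by
        rw [← Matrix.mul_assoc, Matrix.mul_nonsing_inv T hu, Matrix.one_mul]
    _ = c • T := by rw [hc, Matrix.mul_smul, Matrix.mul_one]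

theorem deg_dvd {n : ℕ} (R : U →* Matrix (Fin n) (Fin n) ℂ) {χ : U → ℂ} (hχ : IsIrr χ)
    (h : ∀ u, (R u).trace = χ u) : n ∣ Nat.card U := by
  have h1 := Pool.Agent.R403.RS.frob_dvd (rep R) (rep_irr R hχ h)
  rwa [Module.finrank_fintype_fun_eq_card, Fintype.card_fin] at h1

/-- D -/
theorem ops {H Ω : Type} [Group H] [Fintype Ω] [MulAction H Ω]
    (β : H → Ω → MulAut U) (hβ : ∀ x y o, β (x * y) o = β x (y • o) * β y o)
    (g : Ω → U → ℂ) (hg : ∀ o, IsIrr (g o)) (hgβ : ∀ x o v, g (x • o) (β x o v) = g o v) :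
    ∃ (n : Ω → ℕ) (R : ∀ o, U →* Matrix (Fin (n o)) (Fin (n o)) ℂ)
      (A : H → ∀ o o' : Ω, Matrix (Fin (n o')) (Fin (n o)) ℂ) (l : H → H → Ω → ℂ),
      (∀ o u, (R o u).trace = g o u) ∧
      (∀ x o o', x • o = o' → ∀ u, A x o o' * R o u = R o' (β x o u) * A x o o') ∧
      (∀ x y o, l x y o ≠ 0 ∧ (l x y o) ^ (Nat.card U ^ 2) = 1) ∧
      (∀ x y o o' o'', y • o = o' → x • o' = o'' →
        A x o' o'' * A y o o' = l x y o • A (x * y) o o'') ∧
      (∀ x o (w : U), x • o = o → (∀ v, β x o v = w * v * w⁻¹) →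
        ∃ r : ℂ, r ≠ 0 ∧ r ^ (Nat.card U ^ 2) = 1 ∧ A x o o = r • R o w) := by
  choose n R htr _ using fun o => exists_mat (hg o)
  have hn : ∀ o, 0 < n o := fun o => pos_of_irr (R o) (hg o) (htr o)
  have hd : ∀ o, n o ∣ Nat.card U := fun o => deg_dvd (R o) (hg o) (htr o)
  have htr' : ∀ x o o', x • o = o' → ∀ u, (R o' (β x o u)).trace = g o u := by
    intro x o o' h u
    rw [htr, ← h, hgβ]
  have hsz : ∀ x o o', x • o = o' → n o' = n o := fun x o o' h =>
    size_eq (R o) ((R o').comp (β x o).toMonoidHom) (htr o) (fun u => htr' x o o' h u)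
  have hA : ∀ (x : H) (o o' : Ω), ∃ A : Matrix (Fin (n o')) (Fin (n o)) ℂ, x • o = o' →
      Dt A = 1 ∧ ∀ u, A * R o u = R o' (β x o u) * A := by
    intro x o o'
    by_cases h : x • o = o'
    · obtain ⟨T, h1, h2⟩ := exists_op (R o) ((R o').comp (β x o).toMonoidHom) (hg o) (htr o)
        (fun u => htr' x o o' h u)
      exact ⟨T, fun _ => ⟨h1, h2⟩⟩
    · exact ⟨0, fun h' => absurd h' h⟩
  choose A hA using hA
  have hl : ∀ (x y : H) (o : Ω), ∃ l : ℂ, (l ≠ 0 ∧ l ^ (Nat.card U ^ 2) = 1) ∧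
      A x (y • o) (x • y • o) * A y o (y • o) = l • A (x * y) o (x • y • o) := by
    intro x y o
    obtain ⟨a1, a2⟩ := hA x (y • o) (x • y • o) rfl
    obtain ⟨b1, b2⟩ := hA y o (y • o) rfl
    obtain ⟨c1, c2⟩ := hA (x * y) o (x • y • o) (mul_smul x y o)
    obtain ⟨l, hl⟩ := op_unique (R o) ((R (x • y • o)).comp (β (x * y) o).toMonoidHom) (hg o)
      (htr o) (fun u => htr' (x * y) o _ (mul_smul x y o) u) (A (x * y) o (x • y • o))
      (A x (y • o) (x • y • o) * A y o (y • o)) c1 c2 (fun u => by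
        show A x (y • o) (x • y • o) * A y o (y • o) * R o u =
          R (x • y • o) (β (x * y) o u) * (A x (y • o) (x • y • o) * A y o (y • o))
        rw [Matrix.mul_assoc, b2, ← Matrix.mul_assoc, a2, Matrix.mul_assoc, hβ]
        rfl)
    have e1 := hsz x (y • o) (x • y • o) rfl
    have e2 := hsz y o (y • o) rfl
    have h1 : l ^ n (x • y • o) = 1 := by
      have h2 := Dt_mul e1 e2 (A x (y • o) (x • y • o)) (A y o (y • o))
      rw [hl, Dt_smul (e1.trans e2), a1, b1, c1, mul_one, mul_one] at h2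
      exact h2
    refine ⟨l, ⟨?_, ?_⟩, hl⟩
    · rintro rfl
      rw [zero_pow (hn _).ne'] at h1
      exact zero_ne_one h1
    · obtain ⟨k, hk⟩ := hd (x • y • o)
      rw [pow_two, hk, mul_assoc, pow_mul, h1, one_pow]
  choose l hl0 hl using hl
  refine ⟨n, R, A, l, htr, fun x o o' h => (hA x o o' h).2, hl0, ?_, ?_⟩
  · intro x y o o' o'' h1 h2
    subst h1
    subst h2
    exact hl x y o
  · intro x o w hx hw
    obtain ⟨a1, a2⟩ := hA x o o hx
    obtain ⟨c, hc⟩ := op_unique (R o) ((R o).comp (β x o).toMonoidHom) (hg o)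
      (htr o) (fun u => htr' x o _ hx u) (A x o o) (R o w) a1 a2 (fun u => by
        show _ = R o (β x o u) * _
        rw [hw, ← map_mul, ← map_mul]
        congr 1
        group)
    have h1 : (R o w).det = c ^ n o := by
      have h2 := congrArg Matrix.det hc
      rw [Matrix.det_smul, Fintype.card_fin, ← Dt_self (A x o o), a1, mul_one] at h2
      exact h2
    have h3 : (R o w).det ^ Nat.card U = 1 := by
      rw [← Matrix.det_pow, ← map_pow, pow_card_eq_one', map_one, Matrix.det_one]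
    have h4 : c ^ (Nat.card U ^ 2) = 1 := by
      obtain ⟨k, hk⟩ := hd o
      calc c ^ (Nat.card U ^ 2) = ((c ^ n o) ^ Nat.card U) ^ k := by
            rw [← pow_mul, ← pow_mul]
            congr 1
            nth_rewrite 1 [pow_two]
            nth_rewrite 1 [hk]
            ring
        _ = 1 := by rw [← h1, h3, one_pow]
    have hc0 : c ≠ 0 := by
      rintro rfl
      have h5 : Nat.card U ^ 2 ≠ 0 := pow_ne_zero _ Nat.card_pos.ne'
      rw [zero_pow h5] at h4
      exact zero_ne_one h4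
    refine ⟨c⁻¹, inv_ne_zero hc0, ?_, ?_⟩
    · rw [inv_pow, h4, inv_one]
    · rw [hc, smul_smul, inv_mul_cancel₀ hc0, one_smul]

end Pool.Agent.Zk9.C3
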