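import Pool.Agent.Zk47.C3.Def
import Pool.Agent.Zk9.C3.D0

/-!
# Piece D
-/

set_option autoImplicit false

namespace Pool.Agent.Zk9.C3

open Pool.Agent.Zk47.C3

theorem t_D : StD := fun β hβ g hg hgβ => ops β hβ g hg hgβ

end Pool.Agent.Zk9.C3
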